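import Mathlib
import Pool.Agent.H440R2.LFL2

/-!
Lower bounds for `|q log d - o log m|`, `d`, `m` coprime, and the number of integers `q` in an
interval for which it is small.
-/

set_option autoImplicit false

namespace Pool.Agent.H53.MC

open Finset Filter Pool.Agent.H440R2

/-- linear forms in two logarithms of coprime integers -/
theorem lfl_coprime (p q a b Y L : ℕ) (hp : 2 ≤ p) (hq : 2 ≤ q) (hpq : Nat.Coprime p q)
    (ha : 1 ≤ a) (hb : 1 ≤ b) (hY : 1 ≤ Y) (hL1 : 1 ≤ L)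
    (hpY : Real.log p ≤ Y) (hqY : Real.log q ≤ Y)
    (hL : 8 * (1 + Real.log (290 * Y * L * (a + b))) ≤ L) :
    Real.exp (-(20880 * (Y:ℝ) ^ 2 * (L:ℝ) ^ 2)) < |b * Real.log q - a * Real.log p| := by
  obtain ⟨g, a', b', hg, hcop, rfl, rfl⟩ := Nat.exists_coprime' (m := a) (n := b)
    (Nat.gcd_pos_of_pos_left _ ha)
  have hg1 : (1:ℝ) ≤ g := by exact_mod_cast hg
  have ha' : 1 ≤ a' := by
    rcases Nat.eq_zero_or_pos a' with h | h
    · simp [h] at ha
    · exact h
  have hb' : 1 ≤ b' := by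
    rcases Nat.eq_zero_or_pos b' with h | h
    · simp [h] at hb
    · exact h
  have har : (1:ℝ) ≤ a' := by exact_mod_cast ha'
  have hbr : (1:ℝ) ≤ b' := by exact_mod_cast hb'
  have hYr : (1:ℝ) ≤ Y := by exact_mod_cast hY
  have hLr : (1:ℝ) ≤ L := by exact_mod_cast hL1
  have hred : |b' * Real.log q - a' * Real.log p| ≤
      |((b' * g : ℕ) : ℝ) * Real.log q - ((a' * g : ℕ) : ℝ) * Real.log p| := by
    have : ((b' * g : ℕ) : ℝ) * Real.log q - ((a' * g : ℕ) : ℝ) * Real.log p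
        = g * (b' * Real.log q - a' * Real.log p) := by push_cast; ring
    rw [this, abs_mul, Nat.abs_cast]
    exact le_mul_of_one_le_left (abs_nonneg _) hg1
  refine lt_of_lt_of_le ?_ hred
  have hL' : 8 * (1 + Real.log (290 * Y * L * (a' + b'))) ≤ L := by
    refine le_trans ?_ hL
    have h1 : Real.log (290 * Y * L * (a' + b')) ≤
        Real.log (290 * Y * L * (((a' * g : ℕ) : ℝ) + ((b' * g : ℕ) : ℝ))) := by
      apply Real.log_le_log (by positivity)
      have h2 : (a' : ℝ) ≤ ((a' * g : ℕ) : ℝ) := by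
        push_cast
        exact le_mul_of_one_le_right (by linarith) hg1
      have h3 : (b' : ℝ) ≤ ((b' * g : ℕ) : ℝ) := by
        push_cast
        exact le_mul_of_one_le_right (by linarith) hg1
      gcongr
    linarith
  by_cases hcase : 145 * Y * L ≤ a'
  · exact lfl_core p q a' b' Y L hp hq ha' hb' hcop hY hL1 hpY hqY hcase hL'
  · rw [not_le] at hcase
    have hne : p ^ a' ≠ q ^ b' := by
      intro h
      have h5 : Nat.Coprime (p ^ a') (q ^ b') := Nat.Coprime.pow _ _ hpq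
      rw [← h, Nat.coprime_self] at h5
      have h6 : 1 < p ^ a' := Nat.one_lt_pow (by omega) (by omega)
      omega
    have h1 := liouville_log (p ^ a') (q ^ b') (Nat.one_le_pow _ _ (by omega))
      (Nat.one_le_pow _ _ (by omega)) hne
    push_cast at h1
    rw [Real.log_pow, Real.log_pow] at h1
    refine lt_of_lt_of_le ?_ h1
    have hp0 : (0:ℝ) < p := by
      have : 0 < p := by omega
      exact_mod_cast this
    have h2 : (p:ℝ) ^ a' = Real.exp (a' * Real.log p) := by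
      rw [Real.exp_nat_mul, Real.exp_log hp0]
    rw [h2, one_div, mul_inv, ← Real.exp_neg]
    have h3 : Real.exp (-1) ≤ (2:ℝ)⁻¹ := by
      rw [Real.exp_neg]
      apply inv_anti₀ (by norm_num)
      have := Real.add_one_le_exp (1:ℝ)
      linarith
    have h4 : Real.exp (-1) * Real.exp (-(a' * Real.log p)) ≤ (2:ℝ)⁻¹ * Real.exp (-(a' * Real.log p)) :=
      mul_le_mul_of_nonneg_right h3 (Real.exp_pos _).le
    refine lt_of_lt_of_le ?_ h4
    rw [← Real.exp_add, Real.exp_lt_exp]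
    have h5 : (a':ℝ) * Real.log p ≤ a' * Y := by
      apply mul_le_mul_of_nonneg_left hpY (by linarith)
    have h6 : (a':ℝ) ≤ 145 * Y * L := by exact_mod_cast hcase.le
    have h7 : (a':ℝ) * Y ≤ 145 * Y * L * Y := mul_le_mul_of_nonneg_right h6 (by linarith)
    have h8 : (145:ℝ) * Y * L * Y ≤ 145 * (Y^2 * L^2) := by
      have : (L:ℝ) ≤ L^2 := by nlinarith
      have h9 : (0:ℝ) ≤ Y^2 := by positivity
      nlinarith [mul_le_mul_of_nonneg_left this h9]
    have h10 : (1:ℝ) ≤ Y^2 * L^2 :=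
      one_le_mul_of_one_le_of_one_le (one_le_pow₀ hYr) (one_le_pow₀ hLr)
    nlinarith

/-- for `1 ≤ q ≤ exp (L / 16)` and every integer `o`: `|q log d - o log m| > exp (- c L²)` -/
theorem lower (d m Y : ℕ) (hd : 2 ≤ d) (hm : 2 ≤ m) (hc : Nat.Coprime m d) (hY : 1 ≤ Y)
    (hdY : Real.log d ≤ Y) (hmY : Real.log m ≤ Y) :
    ∃ L₀ : ℕ, ∀ L : ℕ, L₀ ≤ L → ∀ q : ℕ, 1 ≤ q → (q : ℝ) ≤ Real.exp ((L : ℝ) / 16) → ∀ o : ℤ,
      Real.exp (-(20880 * (Y:ℝ) ^ 2 * (L:ℝ) ^ 2)) < |(q : ℝ) * Real.log d - o * Real.log m| := by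
  have hlim : Tendsto (fun L : ℕ => 8 * (1 + Real.log (1160 * (Y : ℝ) ^ 2 * L)) / (L : ℝ)) atTop
      (nhds 0) := by
    have h1 : Tendsto (fun L : ℕ => Real.log (L : ℝ) / (L : ℝ)) atTop (nhds 0) := by
      have := Real.isLittleO_log_id_atTop.tendsto_div_nhds_zero
      exact this.comp tendsto_natCast_atTop_atTop
    have h2 : Tendsto (fun L : ℕ => (8 * (1 + Real.log (1160 * (Y : ℝ) ^ 2))) / (L : ℝ)) atTop
        (nhds 0) := tendsto_const_div_atTop_nhds_zero_nat _
    have h3 := (h1.const_mul 8).add h2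
    simp only [mul_zero, add_zero] at h3
    refine h3.congr' ?_
    filter_upwards [eventually_ge_atTop 1] with L hL
    have hL0 : (0 : ℝ) < L := by exact_mod_cast hL
    have hY0 : (0 : ℝ) < Y := by exact_mod_cast hY
    rw [Real.log_mul (by positivity) hL0.ne']
    field_simp
    ring
  obtain ⟨L₀, hL₀⟩ := eventually_atTop.1 (hlim.eventually (gt_mem_nhds (by norm_num : (0:ℝ) < 1 / 2)))
  refine ⟨max L₀ 1, ?_⟩
  intro L hL q hq1 hqL o
  have hL1 : 1 ≤ L := (le_max_right _ _).trans hL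
  have hLr : (1 : ℝ) ≤ L := by exact_mod_cast hL1
  have hYr : (1 : ℝ) ≤ Y := by exact_mod_cast hY
  have hhalf := hL₀ L ((le_max_left _ _).trans hL)
  rw [div_lt_iff₀ (by linarith)] at hhalf
  have hld : Real.log 2 ≤ Real.log d := Real.log_le_log (by norm_num) (by exact_mod_cast hd)
  have hlm : Real.log 2 ≤ Real.log m := Real.log_le_log (by norm_num) (by exact_mod_cast hm)
  have hl2 := Real.log_two_gt_d9
  have hq1r : (1 : ℝ) ≤ q := by exact_mod_cast hq1
  have hsmall : Real.exp (-(20880 * (Y:ℝ) ^ 2 * (L:ℝ) ^ 2)) < 1 / 2 := by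
    have h1 : (1 : ℝ) ≤ (Y:ℝ) ^ 2 * (L:ℝ) ^ 2 :=
      one_le_mul_of_one_le_of_one_le (one_le_pow₀ hYr) (one_le_pow₀ hLr)
    have h2 : Real.exp (-(20880 * (Y:ℝ) ^ 2 * (L:ℝ) ^ 2)) ≤ Real.exp (-1) := by
      apply Real.exp_le_exp.2; nlinarith
    have h3 : Real.exp (-1) < 1 / 2 := by
      rw [Real.exp_neg, ← one_div]
      apply one_div_lt_one_div_of_lt (by norm_num)
      have := Real.add_one_lt_exp (one_ne_zero : (1:ℝ) ≠ 0)
      linarith
    linarith
  rcases le_or_gt o 0 with ho | ho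
  · have ho' : (o : ℝ) ≤ 0 := by exact_mod_cast ho
    have h1 : (1 : ℝ) / 2 ≤ (q : ℝ) * Real.log d - o * Real.log m := by nlinarith
    exact hsmall.trans_le (h1.trans (le_abs_self _))
  · obtain ⟨a, rfl⟩ := Int.eq_ofNat_of_zero_le ho.le
    have ha1 : 1 ≤ a := by omega
    have ha1r : (1 : ℝ) ≤ a := by exact_mod_cast ha1
    rw [Int.cast_natCast]
    rcases le_or_gt (a : ℝ) (3 * Y * Real.exp ((L : ℝ) / 16)) with h | h
    · apply lfl_coprime m d a q Y L hm hd hc ha1 hq1 hY hL1 hmY hdY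
      have h1 : Real.log (290 * Y * L * (a + q)) ≤
          Real.log (1160 * (Y : ℝ) ^ 2 * L) + (L : ℝ) / 16 := by
        rw [← Real.log_exp ((L : ℝ) / 16), ← Real.log_mul (by positivity) (Real.exp_pos _).ne']
        apply Real.log_le_log (by positivity)
        have h2 : (a : ℝ) + q ≤ 4 * Y * Real.exp ((L : ℝ) / 16) := by
          have : Real.exp ((L : ℝ) / 16) ≤ Y * Real.exp ((L : ℝ) / 16) :=
            le_mul_of_one_le_left (Real.exp_pos _).le hYr
          linarith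
        calc 290 * (Y : ℝ) * L * (a + q) ≤ 290 * (Y : ℝ) * L * (4 * Y * Real.exp ((L : ℝ) / 16)) := by
              gcongr
          _ = 1160 * (Y : ℝ) ^ 2 * L * Real.exp ((L : ℝ) / 16) := by ring
      linarith
    · have h1 : (q : ℝ) * Real.log d ≤ Y * Real.exp ((L : ℝ) / 16) := by
        rw [mul_comm (Y : ℝ)]
        exact mul_le_mul hqL hdY (by linarith) (Real.exp_pos _).le
      have h3 : (1 : ℝ) ≤ Real.exp ((L : ℝ) / 16) := Real.one_le_exp (by positivity)
      have h4 : 3 * Y * Real.exp ((L : ℝ) / 16) * (1 / 2) ≤ a * Real.log m := by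
        apply mul_le_mul h.le (by linarith) (by norm_num) (by positivity)
      have h5 : (1 : ℝ) ≤ Y * Real.exp ((L : ℝ) / 16) := one_le_mul_of_one_le_of_one_le hYr h3
      have h2 : (1 : ℝ) / 2 ≤ a * Real.log m - (q : ℝ) * Real.log d := by nlinarith
      rw [abs_sub_comm]
      exact hsmall.trans_le (h2.trans (le_abs_self _))

/-- a separated set in an interval -/
theorem card_separated (F : Finset ℕ) (Q P : ℕ) (D : ℝ) (hD : 1 ≤ D)
    (hF : ∀ p ∈ F, Q < p ∧ p ≤ Q + P) (hsep : ∀ p ∈ F, ∀ q ∈ F, p < q → D < (q : ℝ) - p) :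
    (F.card : ℝ) ≤ P / D + 1 := by
  classical
  have hD0 : 0 < D := by linarith
  have hinj : Set.InjOn (fun p : ℕ => ⌊((p : ℝ) - Q) / D⌋₊) F := by
    intro p hp q hq hpq
    simp only at hpq
    by_contra hne
    have key : ∀ a ∈ F, ∀ b ∈ F, a < b →
        ⌊((a : ℝ) - Q) / D⌋₊ = ⌊((b : ℝ) - Q) / D⌋₊ → False := by
      intro a ha b hb hab he
      have h1 := hsep a ha b hb hab
      have ha0 : (0 : ℝ) ≤ ((a : ℝ) - Q) / D := by
        have : (Q : ℝ) < a := by exact_mod_cast (hF a ha).1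
        apply div_nonneg <;> linarith
      have hb0 : (0 : ℝ) ≤ ((b : ℝ) - Q) / D := by
        have : (Q : ℝ) < b := by exact_mod_cast (hF b hb).1
        apply div_nonneg <;> linarith
      have h2 := Nat.floor_le ha0
      have h3 := Nat.lt_floor_add_one (((b : ℝ) - Q) / D)
      rw [← he] at h3
      have h4 : ((b : ℝ) - Q) / D = ((a : ℝ) - Q) / D + ((b : ℝ) - a) / D := by ring
      have h5 : 1 < ((b : ℝ) - a) / D := by rw [lt_div_iff₀ hD0]; linarith
      linarith
    rcases lt_or_gt_of_ne hne with h | h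
    · exact key p hp q hq h hpq
    · exact key q hq p hp h hpq.symm
  have hmaps : ∀ p ∈ F, ⌊((p : ℝ) - Q) / D⌋₊ ∈ range (⌊(P : ℝ) / D⌋₊ + 1) := by
    intro p hp
    rw [mem_range]
    apply Nat.lt_succ_of_le
    apply Nat.floor_le_floor
    have : (p : ℝ) ≤ Q + P := by exact_mod_cast (hF p hp).2
    gcongr
    linarith
  have hcard := card_le_card_of_injOn _ hmaps hinj
  rw [card_range] at hcard
  have h1 : (F.card : ℝ) ≤ (⌊(P : ℝ) / D⌋₊ + 1 : ℕ) := by exact_mod_cast hcard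
  refine h1.trans ?_
  push_cast
  have := Nat.floor_le (show (0 : ℝ) ≤ (P : ℝ) / D by positivity)
  linarith

/-- the number of `q` in an interval of length `P` with `q log d` within `A P ^ (-κ)` of the multiples
of `log m` -/
theorem count (d m : ℕ) (hd : 2 ≤ d) (hm : 2 ≤ m) (hc : Nat.Coprime m d) (κ : ℝ) (hκ : 0 < κ) :
    ∃ c : ℝ, 0 < c ∧ ∀ A : ℝ, 0 < A → ∃ C : ℝ, 0 < C ∧ ∀ Q P : ℕ, 1 ≤ P → ∀ F : Finset ℕ,
      (∀ p ∈ F, (Q < p ∧ p ≤ Q + P) ∧
        ∃ o : ℤ, |(p : ℝ) * Real.log d - o * Real.log m| ≤ A * (P : ℝ) ^ (-κ)) →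
      (F.card : ℝ) ≤ C * P * Real.exp (-(c * Real.sqrt (Real.log P))) := by
  obtain ⟨Y, hY, hdY, hmY⟩ : ∃ Y : ℕ, 1 ≤ Y ∧ Real.log d ≤ Y ∧ Real.log m ≤ Y := by
    refine ⟨⌈max (Real.log d) (Real.log m)⌉₊ + 1, by omega, ?_, ?_⟩
    · push_cast
      have := Nat.le_ceil (max (Real.log d) (Real.log m))
      have := le_max_left (Real.log d) (Real.log m)
      linarith
    · push_cast
      have := Nat.le_ceil (max (Real.log d) (Real.log m))
      have := le_max_right (Real.log d) (Real.log m)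
      linarith
  obtain ⟨L₀, hlow⟩ := lower d m Y hd hm hc hY hdY hmY
  have hYr : (1 : ℝ) ≤ Y := by exact_mod_cast hY
  -- the constant in `L = ⌊c₃ √(log P)⌋`
  set c₃ : ℝ := Real.sqrt (κ / (2 * (20880 * (Y : ℝ) ^ 2))) with hc₃
  have hc₃0 : 0 < c₃ := Real.sqrt_pos.2 (by positivity)
  have hc₃sq : 20880 * (Y : ℝ) ^ 2 * c₃ ^ 2 = κ / 2 := by
    rw [hc₃, Real.sq_sqrt (by positivity)]
    field_simp
  refine ⟨c₃ / 16, by positivity, ?_⟩
  intro A hA
  -- thresholds
  have hlog : Tendsto (fun P : ℕ => Real.log (P : ℝ)) atTop atTop :=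
    Real.tendsto_log_atTop.comp tendsto_natCast_atTop_atTop
  have hsqrt : Tendsto (fun P : ℕ => c₃ * Real.sqrt (Real.log (P : ℝ))) atTop atTop :=
    (Real.tendsto_sqrt_atTop.comp hlog).const_mul_atTop hc₃0
  obtain ⟨P₁, hP₁⟩ := eventually_atTop.1 (hsqrt.eventually_ge_atTop ((L₀ : ℝ) + 1))
  obtain ⟨P₂, hP₂⟩ := eventually_atTop.1 (hlog.eventually_ge_atTop (2 / κ * Real.log (2 * A)))
  obtain ⟨P₃, hP₃⟩ := eventually_atTop.1 (hlog.eventually_ge_atTop ((c₃ / 16) ^ 2 + 1))
  set P₀ := max (max P₁ P₂) (max P₃ 1) with hP₀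
  refine ⟨(P₀ : ℝ) * Real.exp (c₃ / 16 * Real.sqrt (Real.log P₀)) + 3, by positivity, ?_⟩
  intro Q P hP F hF
  have hPr : (1 : ℝ) ≤ P := by exact_mod_cast hP
  have hP0 : (0 : ℝ) < P := by linarith
  set S := Real.sqrt (Real.log P) with hS
  have hlogP0 : 0 ≤ Real.log (P : ℝ) := Real.log_nonneg hPr
  have hSsq : S ^ 2 = Real.log P := Real.sq_sqrt hlogP0
  have hS0 : 0 ≤ S := Real.sqrt_nonneg _
  rcases lt_or_ge P P₀ with hlt | hge
  · -- small `P`
    have h1 : (F.card : ℝ) ≤ P := by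
      have h2 : F ⊆ Finset.Ioc Q (Q + P) := fun p hp => mem_Ioc.2 (hF p hp).1
      have h3 := card_le_card h2
      rw [Nat.card_Ioc] at h3
      have h4 : F.card ≤ P := by omega
      exact_mod_cast h4
    have hltr : (P : ℝ) ≤ P₀ := by exact_mod_cast hlt.le
    have h5 : S ≤ Real.sqrt (Real.log P₀) :=
      Real.sqrt_le_sqrt (Real.log_le_log hP0 hltr)
    have h6 : Real.exp (-(c₃ / 16 * Real.sqrt (Real.log P₀))) ≤ Real.exp (-(c₃ / 16 * S)) := by
      apply Real.exp_le_exp.2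
      have := mul_le_mul_of_nonneg_left h5 (show 0 ≤ c₃ / 16 by positivity)
      linarith
    have hP₀1 : (1 : ℝ) ≤ P₀ := by
      have : 1 ≤ P₀ := by rw [hP₀]; exact (le_max_right _ _).trans (le_max_right _ _)
      exact_mod_cast this
    calc (F.card : ℝ) ≤ P := h1
      _ ≤ P₀ * P := by nlinarith
      _ = (P₀ : ℝ) * Real.exp (c₃ / 16 * Real.sqrt (Real.log P₀)) * P *
            Real.exp (-(c₃ / 16 * Real.sqrt (Real.log P₀))) := by
          have h7 : Real.exp (c₃ / 16 * Real.sqrt (Real.log P₀)) *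
              Real.exp (-(c₃ / 16 * Real.sqrt (Real.log P₀))) = 1 := by
            rw [← Real.exp_add, add_neg_cancel, Real.exp_zero]
          calc (P₀ : ℝ) * P = P₀ * P * 1 := (mul_one _).symm
            _ = _ := by rw [← h7]; ring
      _ ≤ (P₀ : ℝ) * Real.exp (c₃ / 16 * Real.sqrt (Real.log P₀)) * P *
            Real.exp (-(c₃ / 16 * S)) := by gcongr
      _ ≤ _ := by
          gcongr
          linarith
  · have hg1 : P₁ ≤ P := ((le_max_left _ _).trans (le_max_left _ _)).trans hge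
    have hg2 : P₂ ≤ P := ((le_max_right _ _).trans (le_max_left _ _)).trans hge
    have hg3 : P₃ ≤ P := ((le_max_left _ _).trans (le_max_right _ _)).trans hge
    have e1 := hP₁ P hg1
    have e2 := hP₂ P hg2
    have e3 := hP₃ P hg3
    set L : ℕ := ⌊c₃ * S⌋₊ with hL
    have hLle : (L : ℝ) ≤ c₃ * S := Nat.floor_le (by positivity)
    have hLge : c₃ * S < L + 1 := Nat.lt_floor_add_one _
    have hL0 : L₀ ≤ L := by
      have : (L₀ : ℝ) ≤ L := by linarith
      exact_mod_cast this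
    have hLnn : (0 : ℝ) ≤ L := Nat.cast_nonneg L
    have hδ : 2 * (A * (P : ℝ) ^ (-κ)) ≤ Real.exp (-(20880 * (Y:ℝ) ^ 2 * (L:ℝ) ^ 2)) := by
      have h1 : 20880 * (Y:ℝ) ^ 2 * (L:ℝ) ^ 2 ≤ κ / 2 * Real.log P := by
        have h2 : (L:ℝ) ^ 2 ≤ (c₃ * S) ^ 2 := pow_le_pow_left₀ hLnn hLle 2
        calc 20880 * (Y:ℝ) ^ 2 * (L:ℝ) ^ 2 ≤ 20880 * (Y:ℝ) ^ 2 * (c₃ * S) ^ 2 := by gcongr
          _ = (20880 * (Y:ℝ) ^ 2 * c₃ ^ 2) * S ^ 2 := by ring
          _ = κ / 2 * Real.log P := by rw [hc₃sq, hSsq]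
      have h3 : 2 * (A * (P : ℝ) ^ (-κ)) = Real.exp (Real.log (2 * A) - κ * Real.log P) := by
        rw [Real.exp_sub, Real.exp_log (by positivity), ← mul_assoc, Real.rpow_neg hP0.le,
          Real.rpow_def_of_pos hP0, mul_comm κ, div_eq_mul_inv]
      rw [h3]
      apply Real.exp_le_exp.2
      have h4 : Real.log (2 * A) ≤ κ / 2 * Real.log P := by
        have h5 := mul_le_mul_of_nonneg_left e2 (show 0 ≤ κ / 2 by positivity)
        have h6 : κ / 2 * (2 / κ * Real.log (2 * A)) = Real.log (2 * A) := by field_simp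
        rw [h6] at h5
        exact h5
      linarith
    have hsep : ∀ p ∈ F, ∀ q ∈ F, p < q → Real.exp ((L : ℝ) / 16) < (q : ℝ) - p := by
      intro p hp q hq hpq
      by_contra hcon
      obtain ⟨_, o1, h1⟩ := hF p hp
      obtain ⟨_, o2, h2⟩ := hF q hq
      have hcast : ((q - p : ℕ) : ℝ) = (q : ℝ) - p := by rw [Nat.cast_sub hpq.le]
      have h3 := hlow L hL0 (q - p) (by omega) (by rw [hcast]; linarith) (o2 - o1)
      rw [hcast] at h3
      push_cast at h3
      have e : ((q : ℝ) - p) * Real.log d - ((o2 : ℝ) - o1) * Real.log m =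
          (q * Real.log d - o2 * Real.log m) - (p * Real.log d - o1 * Real.log m) := by ring
      rw [e] at h3
      have h4 := abs_sub (q * Real.log d - o2 * Real.log m) (p * Real.log d - o1 * Real.log m)
      linarith
    have hcnt := card_separated F Q P (Real.exp ((L : ℝ) / 16)) (Real.one_le_exp (by positivity))
      (fun p hp => (hF p hp).1) hsep
    have h7 : (P : ℝ) / Real.exp ((L : ℝ) / 16) ≤ 2 * (P * Real.exp (-(c₃ / 16 * S))) := by
      rw [div_eq_mul_inv, ← Real.exp_neg]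
      have h8 : Real.exp (-((L : ℝ) / 16)) ≤ 2 * Real.exp (-(c₃ / 16 * S)) := by
        have h9 : Real.exp (-((L : ℝ) / 16)) ≤ Real.exp (1 / 16 + -(c₃ / 16 * S)) := by
          apply Real.exp_le_exp.2; linarith
        rw [Real.exp_add] at h9
        have h10 : Real.exp (1 / 16) ≤ 2 := by
          have h11 := Real.exp_bound_div_one_sub_of_interval (x := 1 / 16) (by norm_num) (by norm_num)
          norm_num at h11 ⊢
          linarith
        have h12 := mul_le_mul_of_nonneg_right h10 (Real.exp_pos (-(c₃ / 16 * S))).le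
        linarith
      nlinarith [mul_le_mul_of_nonneg_left h8 hP0.le]
    have h13 : (1 : ℝ) ≤ P * Real.exp (-(c₃ / 16 * S)) := by
      have h14 : c₃ / 16 * S ≤ Real.log P := by
        rw [← hSsq]
        have h15 : c₃ / 16 ≤ S := by
          have h16 : (c₃ / 16) ^ 2 ≤ S ^ 2 := by rw [hSsq]; linarith
          exact (abs_le_of_sq_le_sq' h16 hS0).2
        nlinarith
      calc (1 : ℝ) = P * Real.exp (-Real.log P) := by
            rw [Real.exp_neg, Real.exp_log hP0]; field_simp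
        _ ≤ _ := by
            apply mul_le_mul_of_nonneg_left _ hP0.le
            apply Real.exp_le_exp.2; linarith
    calc (F.card : ℝ) ≤ 3 * (P * Real.exp (-(c₃ / 16 * S))) := by linarith
      _ ≤ _ := by
        have h16 : 0 ≤ (P₀ : ℝ) * Real.exp (c₃ / 16 * Real.sqrt (Real.log P₀)) := by positivity
        have h17 : 0 ≤ P * Real.exp (-(c₃ / 16 * S)) := by positivity
        rw [mul_assoc]
        nlinarith

end Pool.Agent.H53.MC
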